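import Pool.Agent.H37.CTN.Stmts

/-!
# Board ctn, row FN3 (first part after helper55's proof of T33)
-/

set_option autoImplicit false

namespace Pool.CND

open Finset Polynomial

namespace FN3a

/-! ### Integral elements of `k(t)` -/

theorem int_poly {k L : Type} [Field k] [Field L] [Algebra k L] {t : L}
    (ht : Transcendental k t) {x : L} (hx : x ∈ IntermediateField.adjoin k {t})
    (hi : (aeval t : Polynomial k →ₐ[k] L).toRingHom.IsIntegralElem x) :
    ∃ P : Polynomial k, x = aeval t P := by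
  let _ : Algebra (Polynomial k) L := (aeval t : Polynomial k →ₐ[k] L).toRingHom.toAlgebra
  have halg : ∀ P : Polynomial k, algebraMap (Polynomial k) L P = aeval t P := fun P => rfl
  have hinj : Function.Injective (algebraMap (Polynomial k) L) :=
    transcendental_iff_injective.1 ht
  let ψ : FractionRing (Polynomial k) →ₐ[Polynomial k] L :=
    IsFractionRing.liftAlgHom (g := Algebra.ofId (Polynomial k) L) hinj
  rw [IntermediateField.mem_adjoin_simple_iff] at hx
  obtain ⟨r, s, hrs⟩ := hx
  have hψ : ψ (algebraMap _ (FractionRing (Polynomial k)) r /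
      algebraMap _ (FractionRing (Polynomial k)) s) = x := by
    rw [map_div₀, AlgHom.commutes, AlgHom.commutes, halg, halg, hrs]
  have h1 : IsIntegral (Polynomial k) (ψ (algebraMap _ (FractionRing (Polynomial k)) r /
      algebraMap _ (FractionRing (Polynomial k)) s)) := by
    rw [hψ]
    exact hi
  rw [isIntegral_algHom_iff ψ ψ.toRingHom.injective] at h1
  obtain ⟨P, hP⟩ := (IsIntegrallyClosed.isIntegral_iff).1 h1
  refine ⟨P, ?_⟩
  rw [← hψ, ← hP, AlgHom.commutes, halg]

section

variable {k F L : Type} [Field k] [Field F] [Algebra F k] [Field L] [Algebra k L]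

/-- the root `x_u` -/
noncomputable def xv (k : Type) {F L : Type} {N : ℕ} [Field k] [Field F] [Algebra F k] [Field L]
    [Algebra k L] (X : Fin N → L) (u : Fin N → F) : L := ∑ i, cst k F L (u i) * X i

theorem xv_inj {N : ℕ} {X : Fin N → L}
    (hind : ∀ c : Fin N → F, ∑ i, cst k F L (c i) * X i = 0 → c = 0) :
    Function.Injective (xv k X : (Fin N → F) → L) := by
  intro u v huv
  have h2 := hind (fun i => u i - v i) (by
    unfold xv at huv
    rw [← sub_eq_zero, ← sum_sub_distrib] at huv
    rw [← huv]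
    refine sum_congr rfl fun i _ => ?_
    simp only [cst, map_sub]
    ring)
  funext i
  exact sub_eq_zero.1 (congrFun h2 i)

theorem cst_pow [Finite F] {q : ℕ} (hF : Nat.card F = q) (m : ℕ) (c : F) :
    cst k F L c ^ q ^ m = cst k F L c := by
  have := Fintype.ofFinite F
  rw [Nat.card_eq_fintype_card] at hF
  unfold cst
  rw [← map_pow, ← map_pow, ← hF, FiniteField.pow_card_pow]

/-- the action on the roots -/
theorem act_xv {N : ℕ} {t : L} {X : Fin N → L}
    {G₀ : Subgroup (Matrix.SpecialLinearGroup (Fin N) F)}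
    {ρ : G₀ →* (L ≃ₐ[k] L)} (hC : NCover k F L t X G₀ ρ) (g : G₀) (u : Fin N → F) :
    ρ g (xv k X u) = xv k X (g.1.1.mulVec u) := by
  unfold xv
  rw [map_sum]
  have h1 : ∀ i, ρ g (cst k F L (u i) * X i) =
      ∑ j, cst k F L (g.1.1 j i * u i) * X j := by
    intro i
    have hc : ρ g (cst k F L (u i)) = cst k F L (u i) := AlgEquiv.commutes _ _
    rw [map_mul, hC.act g i, hc, mul_sum]
    refine sum_congr rfl fun j _ => ?_
    simp only [cst, map_mul]
    ring
  rw [sum_congr rfl fun i _ => h1 i, sum_comm]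
  refine sum_congr rfl fun j _ => ?_
  rw [← sum_mul]
  congr 1
  unfold Matrix.mulVec dotProduct
  simp only [cst, map_sum]

theorem integ_xv {q r m : ℕ} (hq2 : 2 ≤ q) (hm : 1 ≤ m)
    {κ : k} {t : L} {X : Fin (r + m + 1) → L} (hS : NRoots k F L q r m κ t X)
    (u : Fin (r + m + 1) → F) :
    (aeval t : Polynomial k →ₐ[k] L).toRingHom.IsIntegralElem (xv k X u) := by
  have hX : ∀ i, (aeval t : Polynomial k →ₐ[k] L).toRingHom.IsIntegralElem (X i) := by
    intro i
    refine ⟨Polynomial.X ^ q ^ (r + m + 1) + (C (Polynomial.X : Polynomial k) *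
      Polynomial.X ^ q ^ (r + 1) + C (C κ * Polynomial.X : Polynomial k) * Polynomial.X ^ q +
      Polynomial.X), ?_, ?_⟩
    · refine monic_X_pow_add ?_
      have h2 : q ^ (r + 1) < q ^ (r + m + 1) := Nat.pow_lt_pow_right hq2 (by omega)
      have h1 : q < q ^ (r + m + 1) := by
        calc q = q ^ 1 := (pow_one q).symm
          _ < q ^ (r + m + 1) := Nat.pow_lt_pow_right hq2 (by omega)
      have h3 : 1 < q ^ (r + m + 1) := by omega
      refine lt_of_le_of_lt (degree_add_le _ _) (max_lt ?_ ?_)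
      · refine lt_of_le_of_lt (degree_add_le _ _) (max_lt ?_ ?_)
        · exact lt_of_le_of_lt (degree_C_mul_X_pow_le _ _) (by exact_mod_cast h2)
        · exact lt_of_le_of_lt (degree_C_mul_X_pow_le _ _) (by exact_mod_cast h1)
      · exact lt_of_le_of_lt degree_X_le (by exact_mod_cast h3)
    · have := hS.rel i
      simp only [eval₂_add, eval₂_mul, eval₂_pow, eval₂_X, eval₂_C]
      rw [← this]
      simp only [AlgHom.toRingHom_eq_coe, RingHom.coe_coe, map_mul, aeval_X, aeval_C]
      ring
  unfold xv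
  let _ : Algebra (Polynomial k) L := (aeval t : Polynomial k →ₐ[k] L).toRingHom.toAlgebra
  have hX' : ∀ i, IsIntegral (Polynomial k) (X i) := hX
  have hcst : ∀ c : F, IsIntegral (Polynomial k) (cst k F L c) := by
    intro c
    have h : cst k F L c = algebraMap (Polynomial k) L (C (algebraMap F k c)) := by
      change _ = aeval t (C (algebraMap F k c))
      rw [aeval_C]
    rw [h]
    exact isIntegral_algebraMap
  exact IsIntegral.sum _ fun i _ => (hcst (u i)).mul (hX' i)

theorem rel_xv {p f q r m : ℕ} [Finite F] (hp : p.Prime) (hc : CharP k p) (hq : q = p ^ f)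
    (hF : Nat.card F = q) {κ : k} {t : L} {X : Fin (r + m + 1) → L}
    (hS : NRoots k F L q r m κ t X) (u : Fin (r + m + 1) → F) :
    xv k X u ^ q ^ (r + m + 1) + t * xv k X u ^ q ^ (r + 1) +
      algebraMap k L κ * t * xv k X u ^ q + xv k X u = 0 := by
  have : Fact p.Prime := ⟨hp⟩
  have : CharP L p := charP_of_injective_algebraMap (algebraMap k L).injective p
  have hpow : ∀ m', xv k X u ^ q ^ m' = ∑ i, cst k F L (u i) * X i ^ q ^ m' := by
    intro m'
    unfold xv
    have h1 := sum_pow_char_pow p (f * m') (univ : Finset (Fin (r + m + 1)))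
      (fun i => cst k F L (u i) * X i)
    rw [pow_mul, ← hq] at h1
    rw [h1]
    refine sum_congr rfl fun i _ => ?_
    rw [mul_pow, cst_pow hF]
  have h1 := hpow 1
  rw [pow_one] at h1
  rw [hpow (r + m + 1), hpow (r + 1), h1, mul_sum, mul_sum]
  unfold xv
  rw [← sum_add_distrib, ← sum_add_distrib, ← sum_add_distrib]
  refine sum_eq_zero fun i _ => ?_
  have := hS.rel i
  linear_combination (cst k F L (u i)) * this

theorem inv_mul_mat {N : ℕ} {G₀ : Subgroup (Matrix.SpecialLinearGroup (Fin N) F)} (g : G₀) :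
    (g⁻¹).1.1 * g.1.1 = 1 :=
  congrArg (fun x : G₀ => x.1.1) (inv_mul_cancel g)

theorem mul_inv_mat {N : ℕ} {G₀ : Subgroup (Matrix.SpecialLinearGroup (Fin N) F)} (g : G₀) :
    g.1.1 * (g⁻¹).1.1 = 1 :=
  congrArg (fun x : G₀ => x.1.1) (mul_inv_cancel g)

/-- the product over an invariant set -/
theorem prod_lift {q r m : ℕ} [Finite F] (hq2 : 2 ≤ q) (hm : 1 ≤ m) {κ : k} {t : L}
    {X : Fin (r + m + 1) → L} {G₀ : Subgroup (Matrix.SpecialLinearGroup (Fin (r + m + 1)) F)}
    {ρ : G₀ →* (L ≃ₐ[k] L)} (hS : NRoots k F L q r m κ t X) (hC : NCover k F L t X G₀ ρ)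
    (S : Finset (Fin (r + m + 1) → F)) (hinv : ∀ g : G₀, ∀ w ∈ S, g.1.1.mulVec w ∈ S) :
    ∃ h : Polynomial (Polynomial k), h.map (aeval t : Polynomial k →ₐ[k] L).toRingHom =
      ∏ w ∈ S, (Polynomial.X - C (xv k X w)) := by
  set P : Polynomial L := ∏ w ∈ S, (Polynomial.X - C (xv k X w)) with hP
  -- invariance
  have hgP : ∀ g : G₀, P.map (ρ g : L →+* L) = P := by
    intro g
    rw [hP, Polynomial.map_prod]
    have e1 : ∀ w ∈ S, (Polynomial.X - C (xv k X w)).map (ρ g : L →+* L) =
        Polynomial.X - C (xv k X (g.1.1.mulVec w)) := by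
      intro w _
      rw [Polynomial.map_sub, Polynomial.map_X, Polynomial.map_C, ← act_xv hC g w]
      rfl
    rw [prod_congr rfl e1]
    refine Finset.prod_nbij' (fun w => g.1.1.mulVec w) (fun w => (g⁻¹).1.1.mulVec w)
      (fun w hw => hinv g w hw) (fun w hw => hinv g⁻¹ w hw) ?_ ?_ (fun w _ => rfl)
    · intro w _
      rw [Matrix.mulVec_mulVec, inv_mul_mat, Matrix.one_mulVec]
    · intro w _
      rw [Matrix.mulVec_mulVec, mul_inv_mat, Matrix.one_mulVec]
  -- integrality
  have hint : ∀ j, (aeval t : Polynomial k →ₐ[k] L).toRingHom.IsIntegralElem (P.coeff j) := by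
    let _ : Algebra (Polynomial k) L := (aeval t : Polynomial k →ₐ[k] L).toRingHom.toAlgebra
    have hl : P ∈ Polynomial.lifts (algebraMap (integralClosure (Polynomial k) L) L) := by
      rw [hP]
      refine Subsemiring.prod_mem _ fun w _ => ?_
      rw [Polynomial.mem_lifts]
      refine ⟨Polynomial.X - C (⟨xv k X w, integ_xv hq2 hm hS w⟩ :
        integralClosure (Polynomial k) L), ?_⟩
      rw [Polynomial.map_sub, Polynomial.map_X, Polynomial.map_C]
      rfl
    intro j
    rw [Polynomial.lifts_iff_coeff_lifts] at hl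
    obtain ⟨y, hy⟩ := hl j
    rw [← hy]
    exact y.2
  have hl : P ∈ Polynomial.lifts (aeval t : Polynomial k →ₐ[k] L).toRingHom := by
    rw [Polynomial.lifts_iff_coeff_lifts]
    intro j
    obtain ⟨Q, hQ⟩ := int_poly hS.tr ((hC.cov.fixed (P.coeff j)).1 fun g => by
      conv_rhs => rw [← hgP g]
      rw [Polynomial.coeff_map]
      rfl) (hint j)
    exact ⟨Q, hQ.symm⟩
  rw [Polynomial.mem_lifts] at hl
  exact hl

/-- the polynomial in two variables -/
noncomputable def GG (k : Type) [Field k] (q r m : ℕ) (κ : k) : Polynomial (Polynomial k) :=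
  Polynomial.X ^ (q ^ (r + m + 1) - 1) + (C (Polynomial.X : Polynomial k) *
    Polynomial.X ^ (q ^ (r + 1) - 1) + C (C κ * Polynomial.X : Polynomial k) *
      Polynomial.X ^ (q - 1) + 1)

theorem GG_monic {q r m : ℕ} (hq2 : 2 ≤ q) (hm : 1 ≤ m) (κ : k) :
    (GG k q r m κ).Monic := by
  unfold GG
  refine monic_X_pow_add ?_
  have h2 : q ^ (r + 1) < q ^ (r + m + 1) := Nat.pow_lt_pow_right hq2 (by omega)
  have h1 : q < q ^ (r + m + 1) := by
    calc q = q ^ 1 := (pow_one q).symm
      _ < q ^ (r + m + 1) := Nat.pow_lt_pow_right hq2 (by omega)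
  have h4 : 0 < q ^ (r + 1) := by positivity
  have h5 : q ^ (r + 1) - 1 < q ^ (r + m + 1) - 1 := by omega
  have h6 : q - 1 < q ^ (r + m + 1) - 1 := by omega
  have h7 : 0 < q ^ (r + m + 1) - 1 := by omega
  refine lt_of_le_of_lt (degree_add_le _ _) (max_lt ?_ ?_)
  · refine lt_of_le_of_lt (degree_add_le _ _) (max_lt ?_ ?_)
    · exact lt_of_le_of_lt (degree_C_mul_X_pow_le _ _) (by exact_mod_cast h5)
    · exact lt_of_le_of_lt (degree_C_mul_X_pow_le _ _) (by exact_mod_cast h6)
  · exact lt_of_le_of_lt degree_one_le (by exact_mod_cast h7)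

theorem GG_natDegree {q r m : ℕ} (hq2 : 2 ≤ q) (hm : 1 ≤ m) (κ : k) :
    (GG k q r m κ).natDegree = q ^ (r + m + 1) - 1 := by
  unfold GG
  have h2 : q ^ (r + 1) < q ^ (r + m + 1) := Nat.pow_lt_pow_right hq2 (by omega)
  have h1 : q < q ^ (r + m + 1) := by
    calc q = q ^ 1 := (pow_one q).symm
      _ < q ^ (r + m + 1) := Nat.pow_lt_pow_right hq2 (by omega)
  have h4 : 0 < q ^ (r + 1) := by positivity
  have h5 : q ^ (r + 1) - 1 < q ^ (r + m + 1) - 1 := by omega
  have h6 : q - 1 < q ^ (r + m + 1) - 1 := by omega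
  have h7 : 0 < q ^ (r + m + 1) - 1 := by omega
  rw [natDegree_add_eq_left_of_natDegree_lt, natDegree_X_pow]
  rw [natDegree_X_pow]
  refine lt_of_le_of_lt (natDegree_add_le _ _) (max_lt ?_ ?_)
  · refine lt_of_le_of_lt (natDegree_add_le _ _) (max_lt ?_ ?_)
    · exact lt_of_le_of_lt (natDegree_C_mul_X_pow_le _ _) h5
    · exact lt_of_le_of_lt (natDegree_C_mul_X_pow_le _ _) h6
  · rw [natDegree_one]
    exact h7

theorem GG_swap {q r m : ℕ} (κ : k) : (Bivariate.swap (GG k q r m κ)).natDegree ≤ 1 := by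
  have h : Bivariate.swap (GG k q r m κ) =
      C (Polynomial.X ^ (q ^ (r + 1) - 1) + C κ * Polynomial.X ^ (q - 1) : Polynomial k) *
        Polynomial.X + C (Polynomial.X ^ (q ^ (r + m + 1) - 1) + 1 : Polynomial k) := by
    unfold GG
    simp only [map_add, map_mul, map_pow, map_one, Bivariate.swap_X, Bivariate.swap_Y,
      Bivariate.swap_C_C]
    ring
  rw [h]
  refine (natDegree_add_le _ _).trans (max_le ?_ ?_)
  · exact (natDegree_C_mul_le _ _).trans natDegree_X_le
  · rw [natDegree_C]
    exact Nat.zero_le _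

end

end FN3a

open FN3a in
theorem fn3_thm : S_FN3 := by
  intro p k F L _ _ _ _ _ _ f q r m κ t X G₀ ρ hp hcp hf hq hF hm hS hC hκ hκ' u v hu hv
  classical
  have hq2 : 2 ≤ q := by
    rw [hq]
    exact le_trans hp.two_le (Nat.le_self_pow (by omega) p)
  have hfin : Finite F := Nat.finite_of_card_ne_zero (by rw [hF]; omega)
  have hFt : Fintype F := Fintype.ofFinite F
  have hinj := xv_inj (k := k) hS.ind
  by_contra hcon
  push Not at hcon
  set φ : Polynomial k →+* L := (aeval t : Polynomial k →ₐ[k] L).toRingHom with hφ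
  have hφinj : Function.Injective φ := transcendental_iff_injective.1 hS.tr
  set S : Finset (Fin (r + m + 1) → F) :=
    Finset.univ.filter fun w => ∃ g ∈ G₀, g.1.mulVec u = w with hSdef
  set S' : Finset (Fin (r + m + 1) → F) :=
    Finset.univ.filter fun w => w ≠ 0 ∧ w ∉ S with hS'def
  have hmul0 : ∀ (g : G₀) (w : Fin (r + m + 1) → F), w ≠ 0 → g.1.1.mulVec w ≠ 0 := by
    intro g w hw h
    apply hw
    rw [← Matrix.one_mulVec w, ← inv_mul_mat g, ← Matrix.mulVec_mulVec, h, Matrix.mulVec_zero]
  have hSinv : ∀ g : G₀, ∀ w ∈ S, g.1.1.mulVec w ∈ S := by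
    intro g w hw
    rw [hSdef, Finset.mem_filter] at hw ⊢
    obtain ⟨-, g', hg', rfl⟩ := hw
    refine ⟨Finset.mem_univ _, g.1 * g', G₀.mul_mem g.2 hg', ?_⟩
    rw [Matrix.mulVec_mulVec]
    rfl
  have hS'inv : ∀ g : G₀, ∀ w ∈ S', g.1.1.mulVec w ∈ S' := by
    intro g w hw
    rw [hS'def, Finset.mem_filter] at hw ⊢
    obtain ⟨-, hw0, hwS⟩ := hw
    refine ⟨Finset.mem_univ _, hmul0 g w hw0, fun h => hwS ?_⟩
    have h1 := hSinv g⁻¹ _ h
    rwa [Matrix.mulVec_mulVec, inv_mul_mat, Matrix.one_mulVec] at h1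
  have huS : u ∈ S := by
    rw [hSdef, Finset.mem_filter]
    refine ⟨Finset.mem_univ _, 1, G₀.one_mem, ?_⟩
    exact Matrix.one_mulVec u
  have hvS' : v ∈ S' := by
    rw [hS'def, Finset.mem_filter]
    refine ⟨Finset.mem_univ _, hv, ?_⟩
    rw [hSdef, Finset.mem_filter]
    rintro ⟨-, g, hg, h⟩
    exact hcon g hg h
  have hS0 : ∀ w ∈ S, w ≠ 0 := by
    intro w hw
    rw [hSdef, Finset.mem_filter] at hw
    obtain ⟨-, g, hg, rfl⟩ := hw
    exact hmul0 ⟨g, hg⟩ u hu
  obtain ⟨h₁, hh₁⟩ := prod_lift hq2 hm hS hC S hSinv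
  obtain ⟨h₂, hh₂⟩ := prod_lift hq2 hm hS hC S' hS'inv
  -- the product
  have hdisj : Disjoint S S' := by
    rw [Finset.disjoint_left]
    intro w hw hw'
    rw [hS'def, Finset.mem_filter] at hw'
    exact hw'.2.2 hw
  have hunion : S ∪ S' = Finset.univ.filter fun w : Fin (r + m + 1) → F => w ≠ 0 := by
    ext w
    have hnz : (w ∈ Finset.univ.filter fun w : Fin (r + m + 1) → F => w ≠ 0) ↔ w ≠ 0 := by simp
    rw [Finset.mem_union, hnz]
    constructor
    · rintro (h | h)
      · exact hS0 w h
      · rw [hS'def, Finset.mem_filter] at h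
        exact h.2.1
    · intro h
      by_cases hw : w ∈ S
      · exact Or.inl hw
      · right
        rw [hS'def, Finset.mem_filter]
        exact ⟨Finset.mem_univ _, h, hw⟩
  have hprod : (h₁ * h₂).map φ = (GG k q r m κ).map φ := by
    rw [Polynomial.map_mul, hh₁, hh₂, ← Finset.prod_union hdisj, hunion]
    set Z : Finset (Fin (r + m + 1) → F) :=
      Finset.univ.filter fun w : Fin (r + m + 1) → F => w ≠ 0 with hZ
    have hZcard : Z.card = q ^ (r + m + 1) - 1 := by
      have h1 : Z = Finset.univ.erase 0 := by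
        ext w
        rw [hZ, Finset.mem_filter, Finset.mem_erase]
        tauto
      rw [h1, Finset.card_erase_of_mem (Finset.mem_univ _), Finset.card_univ, Fintype.card_fun,
        Fintype.card_fin, ← Nat.card_eq_fintype_card, hF]
    have hmon1 : (∏ w ∈ Z, (Polynomial.X - C (xv k X w))).Monic :=
      monic_prod_of_monic _ _ fun w _ => monic_X_sub_C _
    have hmon2 : ((GG k q r m κ).map φ).Monic := (GG_monic hq2 hm κ).map φ
    have hdeg1 : (∏ w ∈ Z, (Polynomial.X - C (xv k X w))).natDegree = q ^ (r + m + 1) - 1 := by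
      rw [natDegree_prod_of_monic _ _ fun w _ => monic_X_sub_C _]
      simp only [natDegree_X_sub_C]
      rw [Finset.sum_const, smul_eq_mul, mul_one, hZcard]
    have hdeg2 : ((GG k q r m κ).map φ).natDegree = q ^ (r + m + 1) - 1 := by
      rw [(GG_monic hq2 hm κ).natDegree_map φ, GG_natDegree hq2 hm κ]
    have hdd : (∏ w ∈ Z, (Polynomial.X - C (xv k X w))).degree =
        ((GG k q r m κ).map φ).degree := by
      rw [degree_eq_natDegree hmon1.ne_zero, degree_eq_natDegree hmon2.ne_zero, hdeg1, hdeg2]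
    refine Polynomial.eq_of_degree_sub_lt_of_eval_finset_eq (Z.image (xv k X)) ?_ ?_
    · rw [Finset.card_image_of_injective _ hinj, hZcard]
      refine lt_of_lt_of_le (degree_sub_lt_left hdd hmon1.ne_zero ?_) ?_
      · rw [hmon1.leadingCoeff, hmon2.leadingCoeff]
      · rw [degree_eq_natDegree hmon1.ne_zero, hdeg1]
    · intro x hx
      obtain ⟨w, hw, rfl⟩ := Finset.mem_image.1 hx
      have hw0 : w ≠ 0 := by
        rw [hZ, Finset.mem_filter] at hw
        exact hw.2
      have hx0 : xv k X w ≠ 0 := by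
        intro h
        apply hw0
        apply hinj
        rw [h]
        unfold xv
        simp [cst]
      have e1 : eval (xv k X w) (∏ w ∈ Z, (Polynomial.X - C (xv k X w))) = 0 := by
        rw [eval_prod]
        refine Finset.prod_eq_zero hw ?_
        simp
      rw [e1]
      symm
      refine mul_right_cancel₀ hx0 ?_
      rw [zero_mul]
      have hrel := rel_xv hp hcp hq hF hS w
      have hφX : φ Polynomial.X = t := by
        change aeval t Polynomial.X = t
        exact aeval_X t
      have hφC : φ (C κ) = algebraMap k L κ := by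
        change aeval t (C κ) = _
        exact aeval_C t κ
      unfold GG
      simp only [Polynomial.map_add, Polynomial.map_mul, Polynomial.map_pow, Polynomial.map_X,
        Polynomial.map_C, Polynomial.map_one, eval_add, eval_mul, eval_pow, eval_X, eval_C,
        eval_one, map_mul, hφX, hφC]
      have p1 : xv k X w ^ q ^ (r + m + 1) = xv k X w ^ (q ^ (r + m + 1) - 1) * xv k X w := by
        rw [← pow_succ, Nat.sub_add_cancel (Nat.one_le_pow _ _ (by omega))]
      have p2 : xv k X w ^ q ^ (r + 1) = xv k X w ^ (q ^ (r + 1) - 1) * xv k X w := by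
        rw [← pow_succ, Nat.sub_add_cancel (Nat.one_le_pow _ _ (by omega))]
      have p3 : xv k X w ^ q = xv k X w ^ (q - 1) * xv k X w := by
        rw [← pow_succ, Nat.sub_add_cancel (by omega)]
      rw [p1, p2, p3] at hrel
      rw [← hrel]
      ring
  have hprod' : h₁ * h₂ = GG k q r m κ := Polynomial.map_injective φ hφinj hprod
  have hG0 : GG k q r m κ ≠ 0 := (GG_monic hq2 hm κ).ne_zero
  have hsw : Bivariate.swap h₁ * Bivariate.swap h₂ = Bivariate.swap (GG k q r m κ) := by
    rw [← map_mul, hprod']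
  have hs0 : Bivariate.swap h₁ * Bivariate.swap h₂ ≠ 0 := by
    rw [hsw]
    intro h
    exact hG0 ((map_eq_zero_iff (Bivariate.swap : Polynomial (Polynomial k) ≃ₐ[k] _)
      (Bivariate.swap : Polynomial (Polynomial k) ≃ₐ[k] _).injective).1 h)
  have hdeg : (Bivariate.swap h₁).natDegree + (Bivariate.swap h₂).natDegree ≤ 1 := by
    rw [← natDegree_mul (left_ne_zero_of_mul hs0) (right_ne_zero_of_mul hs0), hsw]
    exact GG_swap κ
  -- a constant root
  have key : ∀ (h : Polynomial (Polynomial k)) (T : Finset (Fin (r + m + 1) → F))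
      (w : Fin (r + m + 1) → F), w ∈ T → w ≠ 0 →
      h.map φ = ∏ w ∈ T, (Polynomial.X - C (xv k X w)) →
      (Bivariate.swap h).natDegree = 0 → False := by
    intro h T w hwT hw0 hh hd
    obtain ⟨g, hg⟩ : ∃ g : Polynomial k, Bivariate.swap h = C g :=
      ⟨_, eq_C_of_natDegree_eq_zero hd⟩
    have hh' : h = g.map C := by
      have h1 := congrArg (Bivariate.swap (R := k)) hg
      rwa [Bivariate.swap_swap_apply, Bivariate.swap_C] at h1
    have hgmap : g.map (algebraMap k L) = ∏ w ∈ T, (Polynomial.X - C (xv k X w)) := by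
      rw [← hh, hh', Polynomial.map_map]
      congr 1
      ext c
      change _ = aeval t (C c)
      rw [aeval_C]
    have hg0 : g ≠ 0 := by
      intro h0
      rw [h0, Polynomial.map_zero] at hgmap
      exact (monic_prod_of_monic T (fun w => Polynomial.X - C (xv k X w))
        fun w _ => monic_X_sub_C _).ne_zero hgmap.symm
    have hroot : aeval (xv k X w) g = 0 := by
      rw [aeval_def, eval₂_eq_eval_map, hgmap, eval_prod]
      refine Finset.prod_eq_zero hwT ?_
      simp
    have hint : IsIntegral k (xv k X w) :=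
      isAlgebraic_iff_isIntegral.1 ⟨g, hg0, hroot⟩
    obtain ⟨a, ha⟩ := minpoly.mem_range_of_degree_eq_one k (xv k X w)
      (IsAlgClosed.degree_eq_one_of_irreducible k (minpoly.irreducible hint))
    have hx0 : xv k X w ≠ 0 := by
      intro h
      apply hw0
      apply hinj
      rw [h]
      unfold xv
      simp [cst]
    have ha0 : a ≠ 0 := by
      rintro rfl
      rw [map_zero] at ha
      exact hx0 ha.symm
    have hrel := rel_xv hp hcp hq hF hS w
    rw [← ha] at hrel
    have hpoly : C (a ^ q ^ (r + m + 1) + a) +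
        C (a ^ q ^ (r + 1) + κ * a ^ q) * Polynomial.X = (0 : Polynomial k) := by
      apply hφinj
      change aeval t _ = aeval t 0
      rw [map_zero, map_add, map_mul, aeval_C, aeval_C, aeval_X]
      simp only [map_add, map_mul, map_pow]
      rw [← hrel]
      ring
    have e0 := congrArg (fun P => P.coeff 0) hpoly
    have e1 := congrArg (fun P => P.coeff 1) hpoly
    simp only [coeff_add, coeff_C_zero, coeff_C_mul, coeff_X_zero, mul_zero, add_zero,
      coeff_zero] at e0
    simp only [coeff_add, coeff_C_succ, coeff_C_mul, coeff_X_one, mul_one, zero_add,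
      coeff_zero] at e1
    refine hκ' a ?_ ?_
    · refine mul_right_cancel₀ ha0 ?_
      rw [← pow_succ, Nat.sub_add_cancel (Nat.one_le_pow _ _ (by omega))]
      linear_combination e0
    · refine mul_right_cancel₀ (pow_ne_zero q ha0) ?_
      rw [← pow_add, Nat.sub_add_cancel (Nat.le_self_pow (by omega) q)]
      linear_combination e1
  rcases Nat.eq_zero_or_pos (Bivariate.swap h₁).natDegree with h0 | h0
  · exact key h₁ S u huS hu hh₁ h0
  · exact key h₂ S' v hvS' hv hh₂ (by omega)

end Pool.CND
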